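import Pool.Agent.Y805.AS.Fin

/-!
# The achievement set of a perturbed dyadic sequence is a Cantor set (MP_1e50ba_an, Q1)

The sequence is `x_{2n-1} = 1 / 2^{2n-1}`, `x_{2n} = 1 / (2^{2n} + 1)` for `n ≥ 1`. The theorem
`result` says that its achievement set `E(x_n)` is homeomorphic to the ternary Cantor set (so it
is not a Cantorval), and that it has positive Lebesgue measure.
-/

set_option autoImplicit false

open Set Filter Topology MeasureTheory

namespace Pool.Agent.Results.MP_1e50ba_an.CantorDyadic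

/-- The achievement set `E(x_n)`: all sums of `x_n` over `n ∈ A`, `A` a set of positive integers
(the empty sum is `0`). -/
def achievementSet (x : ℕ → ℝ) : Set ℝ :=
  {s : ℝ | ∃ A : Set ℕ, A ⊆ {n | 1 ≤ n} ∧ s = ∑' n, A.indicator x n}

/-- `E` is homeomorphic to the middle-thirds Cantor set. -/
def IsCantor (E : Set ℝ) : Prop := Nonempty (E ≃ₜ cantorSet)

/-- The sequence of the problem: `x_n = 1 / 2^n` for odd `n` and `x_n = 1 / (2^n + 1)` for
even `n` (only the terms with `n ≥ 1` are used). -/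
noncomputable def seq (n : ℕ) : ℝ := if Odd n then 1 / 2 ^ n else 1 / (2 ^ n + 1)

theorem seq_odd (n : ℕ) : seq (2 * n + 1) = 1 / 2 ^ (2 * n + 1) := by
  unfold seq
  rw [if_pos (odd_two_mul_add_one n)]

theorem seq_even (n : ℕ) : seq (2 * n) = 1 / (2 ^ (2 * n) + 1) := by
  unfold seq
  rw [if_neg (by simp)]

theorem seq_pos (n : ℕ) : 0 < seq n := by
  unfold seq
  split_ifs <;> positivity

theorem seq_le (n : ℕ) : seq n ≤ 1 / 2 ^ n := by
  unfold seq
  split_ifs
  · exact le_rfl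
  · exact one_div_le_one_div_of_le (by positivity) (by linarith)

theorem diff_eq (n : ℕ) : (1 : ℝ) / 2 ^ n - 1 / (2 ^ n + 1) = 1 / (2 ^ n * (2 ^ n + 1)) := by
  field_simp
  ring

theorem seq_ge (n : ℕ) : 1 / 2 ^ n - (1 / 4 : ℝ) ^ n ≤ seq n := by
  have h4 : (0 : ℝ) < (1 / 4) ^ n := by positivity
  unfold seq
  split_ifs
  · linarith
  · have h1 := diff_eq n
    have h2 : (1 : ℝ) / (2 ^ n * (2 ^ n + 1)) ≤ (1 / 4) ^ n := by
      rw [one_div_pow]
      refine one_div_le_one_div_of_le (by positivity) ?_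
      rw [show (4 : ℝ) = 2 * 2 by norm_num, mul_pow]
      have : (0 : ℝ) < 2 ^ n := by positivity
      nlinarith
    linarith

open Pool.Agent.Y805.AS in
theorem hyp : Hyp seq (fun n => 8 * (1 / 4 : ℝ) ^ n) := by
  refine ⟨fun n _ => seq_pos n, fun n => by positivity, fun n => ?_, fun n _ => ?_, fun η hη => ?_⟩
  · have : (0 : ℝ) < (1 / 4) ^ n := by positivity
    show 8 * (1 / 4 : ℝ) ^ (n + 1) ≤ 8 * (1 / 4) ^ n / 2
    rw [pow_succ]
    linarith
  · rw [abs_le]
    have h1 := seq_le n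
    have h2 := seq_ge n
    have : (0 : ℝ) < (1 / 4) ^ n := by positivity
    constructor <;> show _ ≤ _ <;> linarith
  · have h : Tendsto (fun n : ℕ => 8 * (1 / 2 : ℝ) ^ n) atTop (𝓝 (8 * 0)) :=
      (tendsto_pow_atTop_nhds_zero_of_lt_one (by norm_num) (by norm_num)).const_mul 8
    rw [mul_zero] at h
    obtain ⟨n₀, hn₀⟩ := ((tendsto_order.1 h).2 η hη).exists_forall_of_atTop
    refine ⟨n₀, fun n hn => ?_⟩
    have h1 := (hn₀ n hn).le
    have h3 : (0 : ℝ) < (1 / 2) ^ n := by positivity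
    calc 8 * (1 / 4 : ℝ) ^ n = (8 * (1 / 2) ^ n) * (1 / 2) ^ n := by
          rw [mul_assoc, ← mul_pow]; norm_num
      _ ≤ η * (1 / 2) ^ n := mul_le_mul_of_nonneg_right h1 h3.le
      _ = η * (1 / 2 ^ n) := by rw [one_div_pow]

open Pool.Agent.Y805.AS in
theorem gap (m : ℕ) : 1 / 64 * (8 * (1 / 4 : ℝ) ^ (2 * m + 1)) ≤
    seq (2 * m + 1) - r seq (2 * m + 1) := by
  have h1 := geo (2 * m + 1)
  have h2 := hyp.hasSum_tail (2 * m + 1)
  have h3 := h1.sub h2
  have h4 := h3.summable.sum_le_tsum (Finset.range 1) (fun k _ => by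
    have := seq_le (k + (2 * m + 1 + 1))
    linarith)
  rw [h3.tsum_eq] at h4
  simp only [Finset.range_one, Finset.sum_singleton, zero_add] at h4
  rw [show 2 * m + 1 + 1 = 2 * (m + 1) by ring, seq_even, diff_eq] at h4
  rw [seq_odd]
  refine le_trans ?_ h4
  have e1 : (1 / 4 : ℝ) ^ (2 * m + 1) = 4 * (1 / 16) ^ (m + 1) := by
    rw [pow_succ, pow_mul, pow_succ]; norm_num; ring
  have e2 : (2 : ℝ) ^ (2 * (m + 1)) = 4 ^ (m + 1) := by rw [pow_mul]; norm_num
  rw [e1, e2]
  have h5 : (1 : ℝ) ≤ 4 ^ (m + 1) := one_le_pow₀ (by norm_num)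
  have h6 : (1 / 16 : ℝ) ^ (m + 1) = 1 / (4 ^ (m + 1) * 4 ^ (m + 1)) := by
    rw [← mul_pow, one_div_pow]; norm_num
  rw [h6, show 1 / 64 * (8 * (4 * (1 / (4 ^ (m + 1) * 4 ^ (m + 1) : ℝ)))) =
    1 / (2 * (4 ^ (m + 1) * 4 ^ (m + 1))) by field_simp; norm_num]
  refine one_div_le_one_div_of_le (by positivity) ?_
  nlinarith

/-- The achievement set of the sequence `x_{2n-1} = 1 / 2^{2n-1}`, `x_{2n} = 1 / (2^{2n} + 1)` is
a Cantor set, and it has positive Lebesgue measure. -/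
theorem result :
    IsCantor (achievementSet seq) ∧ 0 < volume (achievementSet seq) := by
  refine ⟨Pool.Agent.Y805.AS.cantor hyp (g := 1 / 64) (by norm_num) (B := 2) fun n => ?_,
    Pool.Agent.Y805.AS.measure_pos hyp ?_⟩
  · rcases Nat.even_or_odd' n with ⟨m, rfl | rfl⟩
    · exact ⟨2 * m + 1, by omega, by omega, gap m⟩
    · exact ⟨2 * m + 1, by omega, by omega, gap m⟩
  · have h : (fun n : ℕ => 2 ^ n * (8 * (1 / 4 : ℝ) ^ n)) = fun n => 8 * (1 / 2 : ℝ) ^ n := by
      funext n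
      rw [mul_left_comm, ← mul_pow]
      norm_num
    rw [h]
    exact summable_geometric_two.mul_left 8

end Pool.Agent.Results.MP_1e50ba_an.CantorDyadic
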